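import Pool.Agent.Lib.MP_3ce60b_pr.Main

set_option autoImplicit false
open MeasureTheory ProbabilityTheory Filter Topology
open scoped NNReal ENNReal
open Pool.Agent.Lib.MP_3ce60b_pr

namespace Pool.Agent.Results.MP_3ce60b_pr.NoCL

theorem result :
    ∃ ρ : Measure Env, IsProbabilityMeasure ρ ∧ SE ρ ∧ POS ρ ∧ UEL ρ ∧ MOM ρ ∧ HasDrift ρ 1 ∧
      ∀ b : ℝ, 0 < b → ∀ (Ω : Type*) [MeasurableSpace Ω] (Q : Measure Ω) (B : ℝ≥0 → Ω → ℝ),
        IsBrownianReal B Q →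
        ¬ WeakJ1 (annealed ρ)
          (fun n a t => (walk a.1 a.2 ⌊(n : ℝ≥0) * t⌋₊ : ℝ) / (b * √(n : ℝ) * Real.log n))
          Q (fun a t => ⨆ s : Set.Iic t, B s a) :=
  main

end Pool.Agent.Results.MP_3ce60b_pr.NoCL
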